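import Pool.Agent.LE87.Final

set_option autoImplicit false

open Complex MeasureTheory Set Filter Topology Metric
open scoped Real Laplacian

namespace Pool.Agent.Results.MP_6db77a_an.NodalLimit

open Pool.Agent.LE87

/-- Let `Ω` be a bounded open set of the plane containing the origin and invariant under the
rotation `ζ = exp(2πi/k)`, `k ≥ 4e`. Let `u_i` (with exponents `p_i → ∞` along any filter `l`) be
classical solutions of `-Δu = |u|^(p-1) u` in `Ω`, `u = 0` off `Ω`, that take negative values, are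
invariant under the rotation, satisfy `‖u‖_∞ = u(x)` at some point `x`, and
`p ∫_Ω |∇u|² ≤ 8πeα` for some fixed `α < 5`. Then `u_i(x_i)` converges to `exp(2s)`, where
`4t = 1 + exp(-2t)` and `s = t + 1/(4(1+exp(2t)))`; this limit lies between `2.46` and `2.47` and
is larger than `√e`. -/
theorem result
    {Ω : Set ℂ} (hopen : IsOpen Ω) (hbdd : Bornology.IsBounded Ω) (h0 : (0 : ℂ) ∈ Ω)
    {k : ℕ} (hk : 4 * Real.exp 1 ≤ k)
    (hrot : ∀ z ∈ Ω, Complex.exp (2 * π * Complex.I / k) * z ∈ Ω)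
    {α : ℝ} (hα : α < 5)
    {ι : Type*} {l : Filter ι} {p : ι → ℝ} (hp : Tendsto p l atTop)
    {u : ι → ℂ → ℝ} {x : ι → ℂ}
    (hcont : ∀ i, Continuous (u i))
    (hzero : ∀ i, ∀ z ∉ Ω, u i z = 0)
    (hreg : ∀ i, ContDiffOn ℝ 2 (u i) Ω)
    (heq : ∀ i, ∀ z ∈ Ω, -(Δ (u i) z) = |u i z| ^ (p i - 1) * u i z)
    (hsym : ∀ i, ∀ z ∈ Ω, u i (Complex.exp (2 * π * Complex.I / k) * z) = u i z)
    (hneg : ∀ i, ∃ z, u i z < 0)
    (hmax : ∀ i, ∀ z, |u i z| ≤ u i (x i))
    (henergy : ∀ᶠ i in l, IntegrableOn (fun z => ‖fderiv ℝ (u i) z‖ ^ 2) Ω ∧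
      p i * ∫ z in Ω, ‖fderiv ℝ (u i) z‖ ^ 2 ≤ 8 * π * Real.exp 1 * α) :
    ∃ t s : ℝ, 4 * t = 1 + Real.exp (-(2 * t)) ∧ s = t + 1 / (4 * (1 + Real.exp (2 * t))) ∧
      2.46 < Real.exp (2 * s) ∧ Real.exp (2 * s) < 2.47 ∧
      Real.sqrt (Real.exp 1) < Real.exp (2 * s) ∧
      Tendsto (fun i => u i (x i)) l (𝓝 (Real.exp (2 * s))) := by
  obtain ⟨t, ht0, ht⟩ := root_exists
  refine ⟨t, t + 1 / (4 * (1 + Real.exp (2 * t))), ht, rfl, (A_bounds ht rfl).1,
    (A_bounds ht rfl).2, sqrt_e_lt ht rfl, ?_⟩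
  set s := t + 1 / (4 * (1 + Real.exp (2 * t))) with hs
  have he := Real.exp_one_gt_d9
  have hπ := Real.pi_pos
  -- constants
  have hk11 : 11 ≤ k := by
    by_contra h
    have h1 : k ≤ 10 := by omega
    have h2 : (k : ℝ) ≤ 10 := by exact_mod_cast h1
    linarith
  obtain ⟨R0, hR0⟩ := hbdd.subset_ball (0 : ℂ)
  obtain ⟨r, hr, hrΩ⟩ := Metric.isOpen_iff.1 hopen 0 h0
  have hD : Dom Ω (max R0 1) (min (r / 2) 1) k (max (2 * Real.exp 1 * α) 0) :=
    { isOpen := hopen
      sub := hR0.trans (ball_subset_ball (le_max_left _ _))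
      hR := le_max_right _ _
      hρ := lt_min (by linarith) one_pos
      hρ1 := min_le_right _ _
      ball_sub := by
        refine (ball_subset_ball ?_).trans hrΩ
        have := min_le_left (r / 2) 1
        linarith
      hk := hk11
      hC := by
        apply max_lt
        · nlinarith [Real.exp_pos 1]
        · positivity
      hC0 := le_max_right _ _ }
  -- good solutions
  have hgood : ∀ᶠ i in l, Good Ω k (max (2 * Real.exp 1 * α) 0) (p i) (u i) := by
    filter_upwards [henergy, hp.eventually_gt_atTop 1] with i hi hpi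
    refine
      { hp := hpi
        sol := ⟨hcont i, hzero i, hreg i, fun z hz => ?_⟩
        symm := fun z => ?_
        pos := ?_
        neg := hneg i
        hint := hi.1
        energy := ?_ }
    · rw [lap_eq_laplacian hopen (hreg i) hz]; exact heq i z hz
    · by_cases hz : z ∈ Ω
      · exact hsym i z hz
      · rw [hzero i z hz]
        apply hzero i
        intro h
        exact hz (rot_back (by omega) hrot h)
    · obtain ⟨z, hz⟩ := hneg i
      exact ⟨x i, lt_of_lt_of_le (abs_pos_of_neg hz) (hmax i z)⟩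
    · refine hi.2.trans ?_
      have := le_max_left (2 * Real.exp 1 * α) 0
      nlinarith
  -- the limit along ultrafilters
  rw [tendsto_iff_ultrafilter]
  intro U hU
  obtain ⟨t', s', _, ht', hs', hup, hlow⟩ := main_lim hD U (hp.mono_left hU) (hU hgood)
  have htt : t' = t := root_unique ht' ht
  subst htt
  have hss : s' = s := by rw [hs', hs]
  subst hss
  rw [Metric.tendsto_nhds]
  intro ε hε
  filter_upwards [hup (ε / 2) (by linarith), hlow (ε / 2) (by linarith)] with i h1 h2
  obtain ⟨z, hz⟩ := h2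
  have a1 := h1 (x i)
  have a2 := hmax i z
  have a3 := le_abs_self (u i (x i))
  rw [Real.dist_eq, abs_lt]
  constructor <;> linarith

end Pool.Agent.Results.MP_6db77a_an.NodalLimit
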